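import Pool.Agent.helper3.T6R.Spec

set_option autoImplicit false

namespace Pool.Agent.T6R

open Finset NumberField Pool.Agent.helper3.FT Pool.Agent.helper47.RA Pool.Agent.T5 Pool.Agent.T6
open scoped nonZeroDivisors

theorem RLB (hREM : REM_stmt) : RLB_stmt := by
  classical
  intro K _ _ Q hD I hI u v hu hv
  obtain ⟨⟨f, g, hf, hg⟩, hcj, hsub, -, -, hne, hfin⟩ := hREM K Q hD
  obtain ⟨f₁, hf₁, f₂, hf₂, hsp, hdet⟩ := Pool.Agent.helper26.T5.lba K Q I hI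
  have hM : (0 : ℤ) < (Ideal.absNorm I : ℤ) := by
    have : Ideal.absNorm I ≠ 0 := by rwa [Ne, Ideal.absNorm_eq_zero_iff]
    have h2 := Nat.pos_of_ne_zero this
    exact_mod_cast h2
  have hq0 : ∀ β : 𝓞 K, β ≠ 0 → 0 < qw Q u v β := by
    intro β hβ
    unfold qw
    have h1 := (hne β hβ).1
    have h2 : 0 < (emA Q β / u) ^ 2 := by positivity
    have h3 : 0 ≤ (emB Q β / v) ^ 2 := by positivity
    linarith
  -- a shortest vector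
  obtain ⟨α₀, hα₀, hα00⟩ := Submodule.exists_mem_ne_zero_of_ne_bot hI
  obtain ⟨S, hS⟩ : ∃ S : Set (𝓞 K), S = {α | α ∈ I ∧ α ≠ 0 ∧ qw Q u v α ≤ qw Q u v α₀} := ⟨_, rfl⟩
  have hSfin : S.Finite := by
    refine (hfin ((u + v) * √(qw Q u v α₀))).subset ?_
    intro α hα
    rw [hS] at hα
    obtain ⟨-, -, h3⟩ := hα
    have h4 : (emA Q α / u) ^ 2 ≤ qw Q u v α₀ := by
      have : 0 ≤ (emB Q α / v) ^ 2 := by positivity
      unfold qw at h3 ⊢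
      linarith
    have h5 : (emB Q α / v) ^ 2 ≤ qw Q u v α₀ := by
      have : 0 ≤ (emA Q α / u) ^ 2 := by positivity
      unfold qw at h3 ⊢
      linarith
    have h6 := Real.abs_le_sqrt h4
    have h7 := Real.abs_le_sqrt h5
    rw [abs_div, abs_of_pos hu, div_le_iff₀ hu] at h6
    rw [abs_div, abs_of_pos hv, div_le_iff₀ hv] at h7
    have h8 := Real.sqrt_nonneg (qw Q u v α₀)
    refine ⟨h6.trans ?_, h7.trans ?_⟩
    · nlinarith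
    · nlinarith
  have hSne : S.Nonempty := ⟨α₀, by rw [hS]; exact ⟨hα₀, hα00, le_rfl⟩⟩
  obtain ⟨e₁, heS, hmin0⟩ := Set.exists_min_image S (qw Q u v) hSfin hSne
  have heS' := heS
  rw [hS] at heS'
  obtain ⟨he₁, he0, heα⟩ := heS'
  have hmin : ∀ β ∈ I, β ≠ 0 → qw Q u v e₁ ≤ qw Q u v β := by
    intro β hβ hβ0
    by_cases h : qw Q u v β ≤ qw Q u v α₀
    · exact hmin0 β (by rw [hS]; exact ⟨hβ, hβ0, h⟩)
    · exact heα.trans (not_le.mp h).le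
  have hn1pos : 0 < qw Q u v e₁ := hq0 e₁ he0
  have hqint : ∀ (c : ℤ) (β : 𝓞 K), qw Q u v ((c : 𝓞 K) * β) = (c : ℝ) ^ 2 * qw Q u v β := by
    intro c β
    unfold qw
    rw [← hf, ← hf, ← hg, ← hg, map_mul, map_mul, map_intCast, map_intCast]
    ring
  obtain ⟨x, y, hxy⟩ := hsp e₁ he₁
  -- coprime coordinates
  have hco : Int.gcd x y = 1 := by
    obtain ⟨r, hr⟩ : ∃ r : ℕ, r = Int.gcd x y := ⟨_, rfl⟩
    obtain ⟨x', hx'⟩ : (r : ℤ) ∣ x := hr ▸ Int.gcd_dvd_left x y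
    obtain ⟨y', hy'⟩ : (r : ℤ) ∣ y := hr ▸ Int.gcd_dvd_right x y
    rw [← hr]
    have hβ : e₁ = ((r : ℤ) : 𝓞 K) * ((x' : 𝓞 K) * f₁ + y' * f₂) := by
      rw [hxy, hx', hy']
      push_cast
      ring
    have hβI : (x' : 𝓞 K) * f₁ + y' * f₂ ∈ I := I.add_mem (I.mul_mem_left _ hf₁) (I.mul_mem_left _ hf₂)
    have hβ0 : (x' : 𝓞 K) * f₁ + y' * f₂ ≠ 0 := by
      intro h
      rw [h, mul_zero] at hβ
      exact he0 hβ
    have h1 : qw Q u v e₁ = ((r : ℤ) : ℝ) ^ 2 * qw Q u v ((x' : 𝓞 K) * f₁ + (y' : 𝓞 K) * f₂) := by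
      conv_lhs => rw [hβ]
      exact hqint _ _
    have h2 := hmin _ hβI hβ0
    have h3 := hq0 _ hβ0
    have hg0 : r ≠ 0 := by
      intro h
      rw [h] at hβ
      simp at hβ
      exact he0 hβ
    by_contra hg1
    have hg2 : (2 : ℝ) ≤ ((r : ℤ) : ℝ) := by
      have : 2 ≤ r := by omega
      exact_mod_cast this
    rw [h1] at h2
    have h4 : (4 : ℝ) ≤ ((r : ℤ) : ℝ) ^ 2 := by nlinarith
    have h5 := mul_le_mul_of_nonneg_right h4 h3.le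
    linarith
  obtain ⟨q, p', huv⟩ : ∃ q p' : ℤ, q * x + p' * y = 1 := by
    have h := Int.isCoprime_iff_gcd_eq_one.2 hco
    obtain ⟨a, b, hab⟩ := h
    exact ⟨a, b, hab⟩
  obtain ⟨p, rfl⟩ : ∃ p : ℤ, p' = -p := ⟨-p', by ring⟩
  have hdet1 : x * q - y * p = 1 := by linarith
  obtain ⟨w, hw⟩ : ∃ w : 𝓞 K, w = (p : 𝓞 K) * f₁ + q * f₂ := ⟨_, rfl⟩
  have hgI : w ∈ I := by
    rw [hw]; exact I.add_mem (I.mul_mem_left _ hf₁) (I.mul_mem_left _ hf₂)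
  have hf1e : f₁ = (q : 𝓞 K) * e₁ - y * w := by
    have : ((x * q - y * p : ℤ) : 𝓞 K) = 1 := by rw [hdet1]; simp
    push_cast at this
    rw [hxy, hw]
    linear_combination (-f₁) * this
  have hf2e : f₂ = (x : 𝓞 K) * w - p * e₁ := by
    have : ((x * q - y * p : ℤ) : 𝓞 K) = 1 := by rw [hdet1]; simp
    push_cast at this
    rw [hxy, hw]
    linear_combination (-f₂) * this
  have hYg : |Q.Y (Q.cj e₁ * w)| = (Ideal.absNorm I : ℤ) := by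
    rw [hxy, hw, Pool.Agent.helper26.T5.lbb_bilin, hdet1, one_mul]
    exact hdet
  -- reduce
  obtain ⟨ρ, hρ⟩ : ∃ ρ : ℝ, ρ = emA Q e₁ / u * (emA Q w / u) + emB Q e₁ / v * (emB Q w / v) := ⟨_, rfl⟩
  obtain ⟨j, hj⟩ : ∃ j : ℤ, j = round (ρ / qw Q u v e₁) := ⟨_, rfl⟩
  obtain ⟨e₂, he₂⟩ : ∃ e₂ : 𝓞 K, e₂ = w - j * e₁ := ⟨_, rfl⟩
  have he₂I : e₂ ∈ I := by
    rw [he₂]; exact I.sub_mem hgI (I.mul_mem_left _ he₁)
  have hY2 : |Q.Y (Q.cj e₁ * e₂)| = (Ideal.absNorm I : ℤ) := by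
    have h1 : Q.cj e₁ * e₂ = Q.cj e₁ * w - ((j : ℤ) : 𝓞 K) * (Q.cj e₁ * e₁) := by rw [he₂]; ring
    rw [h1, Q.Y_sub, Q.Y_int_mul, Pool.Agent.helper26.T5.lbb_self, mul_zero, sub_zero]
    exact hYg
  have he₂0 : e₂ ≠ 0 := by
    intro h
    rw [h, mul_zero] at hY2
    have : Q.Y (0 : 𝓞 K) = 0 := by
      have := Q.Y_int 0
      simpa using this
    rw [this, abs_zero] at hY2
    omega
  have hA2 : emA Q e₂ = emA Q w - j * emA Q e₁ := by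
    rw [he₂, ← hf, ← hf, ← hf, map_sub, map_mul, map_intCast]
  have hB2 : emB Q e₂ = emB Q w - j * emB Q e₁ := by
    rw [he₂, ← hg, ← hg, ← hg, map_sub, map_mul, map_intCast]
  obtain ⟨re, hre⟩ : ∃ re : ℝ, re = emA Q e₁ / u * (emA Q e₂ / u) + emB Q e₁ / v * (emB Q e₂ / v) := ⟨_, rfl⟩
  obtain ⟨im, him⟩ : ∃ im : ℝ, im = emA Q e₁ / u * (emB Q e₂ / v) - emB Q e₁ / v * (emA Q e₂ / u) := ⟨_, rfl⟩
  have hre1 : re = ρ - j * qw Q u v e₁ := by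
    rw [hre, hρ, hA2, hB2]
    unfold qw
    ring
  have hzre : |re| ≤ qw Q u v e₁ / 2 := by
    have h3 : |ρ / qw Q u v e₁ - j| ≤ 1 / 2 := by rw [hj]; exact abs_sub_round _
    have h4 : ρ - j * qw Q u v e₁ = (ρ / qw Q u v e₁ - j) * qw Q u v e₁ := by field_simp
    rw [hre1, h4, abs_mul, abs_of_pos hn1pos]
    nlinarith
  have hznorm : re ^ 2 + im ^ 2 = qw Q u v e₁ * qw Q u v e₂ := by
    rw [hre, him]
    unfold qw
    ring
  have hs0 : 0 ≤ √(Q.D : ℝ) := Real.sqrt_nonneg _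
  have him2 : (u * v * im) ^ 2 = (√(Q.D : ℝ) * Ideal.absNorm I) ^ 2 := by
    have h1 : u * v * im = -((Q.Y (Q.cj e₁ * e₂) : ℝ) * √(Q.D : ℝ)) := by
      rw [← hsub, ← hf, ← hg, map_mul, map_mul, hf, hf, hg, hg, (hcj e₁).1, (hcj e₁).2, him]
      field_simp
      ring
    have h2 : ((Q.Y (Q.cj e₁ * e₂) : ℤ) : ℝ) ^ 2 = (Ideal.absNorm I : ℝ) ^ 2 := by
      have h3 : ((|Q.Y (Q.cj e₁ * e₂)| : ℤ) : ℝ) = (Ideal.absNorm I : ℝ) := by
        rw [hY2]; push_cast; rfl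
      rw [← h3]
      push_cast
      rw [sq_abs]
    rw [h1, neg_sq, mul_pow, h2]
    ring
  have h12 : qw Q u v e₁ ≤ qw Q u v e₂ := hmin e₂ he₂I he₂0
  have hre2 : re ^ 2 ≤ qw Q u v e₁ ^ 2 / 4 := by
    have := abs_le.1 hzre
    nlinarith [this.1, this.2]
  have hprod : qw Q u v e₁ ^ 2 ≤ 4 * im ^ 2 := by nlinarith
  refine ⟨e₁, e₂, ⟨he₁, he₂I, ?_, hY2, he0⟩, hmin, ?_⟩
  · intro α hα
    obtain ⟨X, W, hα'⟩ := hsp α hα
    refine ⟨X * q - W * p + (W * x - X * y) * j, W * x - X * y, ?_⟩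
    have hge : w = e₂ + j * e₁ := by rw [he₂]; ring
    rw [hα', hf1e, hf2e, hge]
    push_cast
    ring
  · have h1 : (u * v * qw Q u v e₁) ^ 2 ≤ (2 * (√(Q.D : ℝ) * Ideal.absNorm I)) ^ 2 := by
      have h2 : (2 * (√(Q.D : ℝ) * (Ideal.absNorm I : ℝ))) ^ 2 = (u * v) ^ 2 * (4 * im ^ 2) := by
        rw [mul_pow, ← him2]
        ring
      rw [h2, mul_pow]
      exact mul_le_mul_of_nonneg_left hprod (by positivity)
    exact (pow_le_pow_iff_left₀ (by positivity) (by positivity) two_ne_zero).1 h1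

end Pool.Agent.T6R
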